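import Pool.Agent.SGE.Stmts

/-! # Squad SGE, rows FCR, HUL, ANG, TRI, SEG: elementary facts on orientations -/

noncomputable section

namespace Pool.Agent.SGE.H99

open Pool.Agent.SGE

theorem o_rot (p q r : ℝ × ℝ) : o q r p = o p q r := by
  unfold o; ring

theorem o_swap (p q r : ℝ × ℝ) : o p r q = - o p q r := by
  unfold o; ring

theorem o_ppq (p q : ℝ × ℝ) : o p p q = 0 := by
  unfold o; ring

theorem o_pqp (p q : ℝ × ℝ) : o p q p = 0 := by
  unfold o; ring

theorem o_pqq (p q : ℝ × ℝ) : o p q q = 0 := by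
  unfold o; ring

/-- FCR -/
theorem fcr : FcrStmt := by
  intro V f T p q r h
  refine ⟨by rw [o_rot]; exact h.pos, h.qr, h.rp, h.pq, fun z hz => h.em z ⟨hz.2.2, hz.1, hz.2.1⟩⟩

/-- HUL -/
theorem hul : HulStmt := by
  intro V f T a b c hT hO
  have hab : a ≠ b := by
    intro h
    have h1 := hO.xa c hO.ac.symm
    have h2 := hO.xb c hO.bc.symm
    rw [h] at h1
    exact absurd h2 (not_lt.2 h1.le)
  have k1 : ∀ v, 0 ≤ o (f a) (f b) (f v) := by
    intro v
    by_cases h1 : v = a
    · rw [h1, o_pqp]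
    · by_cases h2 : v = b
      · rw [h2, o_pqq]
      · exact (hO.oab v h1 h2).le
  have k2 : ∀ v, o (f a) (f c) (f v) ≤ 0 := by
    intro v
    by_cases h1 : v = a
    · rw [h1, o_pqp]
    · by_cases h2 : v = c
      · rw [h2, o_pqq]
      · exact (hO.oac v h1 h2).le
  have k3 : ∀ v, o (f c) (f b) (f v) ≤ 0 := by
    intro v
    by_cases h1 : v = c
    · rw [h1, o_pqp]
    · by_cases h2 : v = b
      · rw [h2, o_pqq]
      · exact (hO.ocb v h1 h2).le
  refine ⟨hT.mx a b hab fun w z _ hX => ?_, hT.mx a c hO.ac fun w z _ hX => ?_,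
    hT.mx c b hO.bc.symm fun w z _ hX => ?_⟩
  · exact absurd hX.1 (not_lt.2 (mul_nonneg (k1 w) (k1 z)))
  · exact absurd hX.1 (not_lt.2 (mul_nonneg_of_nonpos_of_nonpos (k2 w) (k2 z)))
  · exact absurd hX.1 (not_lt.2 (mul_nonneg_of_nonpos_of_nonpos (k3 w) (k3 z)))

/-- ANG -/
theorem ang : AngStmt := by
  intro V _ f T p q r z hT hF hpz h
  obtain ⟨h1, h2⟩ := h
  have hqr : q ≠ r := fun h => hT.irr r (h ▸ hF.qr)
  have hzq : q ≠ z := by
    rintro rfl
    rw [o_pqq] at h1
    exact lt_irrefl _ h1
  have hzr : r ≠ z := by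
    rintro rfl
    rw [o_pqp] at h2
    exact lt_irrefl _ h2
  rcases lt_trichotomy (o (f q) (f r) (f z)) 0 with h3 | h3 | h3
  · refine hT.cf p z q r hpz hF.qr ⟨?_, ?_⟩
    · have e1 : o (f p) (f z) (f q) = - o (f p) (f q) (f z) := o_swap _ _ _
      have e2 : o (f p) (f z) (f r) = o (f r) (f p) (f z) := o_rot _ _ _
      rw [e1, e2]
      exact mul_neg_of_neg_of_pos (neg_lt_zero.2 h1) h2
    · rw [o_rot]
      exact mul_neg_of_pos_of_neg hF.pos h3
  · exact hT.gp.o q r z hqr hzq hzr h3
  · exact hF.em z ⟨h1, h3, h2⟩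

/-- TRI -/
theorem tri : TriStmt := by
  intro p q r u w k hγk hβk hαk hk hαu hP hQ hR hγu hβu
  obtain ⟨s, t, hs, ht, hst, rfl⟩ := hk
  have hs' : s = 1 - t := by linarith
  subst hs'
  have hγw : o p q u < 0 → 0 < o p q w := by
    intro h
    have h1 : o p q ((1 - t) • u + t • w) = (1 - t) * o p q u + t * o p q w := by
      simp only [o, Prod.fst_add, Prod.snd_add, Prod.smul_fst, Prod.smul_snd, smul_eq_mul]
      ring
    rw [h1] at hγk
    by_contra hcon
    have h2 : (1 - t) * o p q u < 0 := mul_neg_of_pos_of_neg hs h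
    have h3 : t * o p q w ≤ 0 := mul_nonpos_of_nonneg_of_nonpos ht.le (not_lt.1 hcon)
    linarith
  have hβw : o r p u < 0 → 0 < o r p w := by
    intro h
    have h1 : o r p ((1 - t) • u + t • w) = (1 - t) * o r p u + t * o r p w := by
      simp only [o, Prod.fst_add, Prod.snd_add, Prod.smul_fst, Prod.smul_snd, smul_eq_mul]
      ring
    rw [h1] at hβk
    by_contra hcon
    have h2 : (1 - t) * o r p u < 0 := mul_neg_of_pos_of_neg hs h
    have h3 : t * o r p w ≤ 0 := mul_nonpos_of_nonneg_of_nonpos ht.le (not_lt.1 hcon)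
    linarith
  have e1 : o q r ((1 - t) • u + t • w) * o u w p + o r p ((1 - t) • u + t • w) * o u w q +
      o p q ((1 - t) • u + t • w) * o u w r = 0 := by
    simp only [o, Prod.fst_add, Prod.snd_add, Prod.smul_fst, Prod.smul_snd, smul_eq_mul]
    ring
  have e2 : o q r u * o u w p + o r p u * o u w q + o p q u * o u w r = 0 := by
    simp only [o]
    ring
  set k : ℝ × ℝ := (1 - t) • u + t • w with hkdef
  -- the two cases
  have hA : o p q u < 0 → 0 ≤ - o p q u * o r p k + o p q k * o r p u → Xs p q u w := by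
    intro h1 h2
    refine ⟨mul_neg_of_neg_of_pos h1 (hγw h1), ?_⟩
    have h3 : 0 < - o p q u * o q r k + o p q k * o q r u := by
      have := mul_nonneg (neg_nonneg.2 h1.le) hαk
      have := mul_pos hγk hαu
      linarith
    have h4 : (- o p q u * o q r k + o p q k * o q r u) * o u w p +
        (- o p q u * o r p k + o p q k * o r p u) * o u w q = 0 := by
      linear_combination (- o p q u) * e1 + o p q k * e2
    have h5 : 0 < - o p q u * o r p k + o p q k * o r p u := by
      rcases h2.lt_or_eq with h | h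
      · exact h
      · rw [← h, zero_mul, add_zero] at h4
        rcases mul_eq_zero.1 h4 with h6 | h6
        · exact absurd h6 h3.ne'
        · exact absurd h6 hP
    by_contra hcon
    have h6 : 0 < o u w p * o u w q :=
      lt_of_le_of_ne (not_lt.1 hcon) (mul_ne_zero hP hQ).symm
    rcases mul_pos_iff.1 h6 with ⟨h7, h8⟩ | ⟨h7, h8⟩
    · have := mul_pos h3 h7
      have := mul_pos h5 h8
      linarith
    · have := mul_neg_of_pos_of_neg h3 h7
      have := mul_neg_of_pos_of_neg h5 h8
      linarith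
  have hB : o r p u < 0 → 0 ≤ - o r p u * o p q k + o r p k * o p q u → Xs p r u w := by
    intro h1 h2
    have g1 : o p r u = - o r p u := by simp only [o]; ring
    have g2 : o p r w = - o r p w := by simp only [o]; ring
    refine ⟨by rw [g1, g2, neg_mul_neg]; exact mul_neg_of_neg_of_pos h1 (hβw h1), ?_⟩
    have h3 : 0 < - o r p u * o q r k + o r p k * o q r u := by
      have := mul_nonneg (neg_nonneg.2 h1.le) hαk
      have := mul_pos hβk hαu
      linarith
    have h4 : (- o r p u * o q r k + o r p k * o q r u) * o u w p +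
        (- o r p u * o p q k + o r p k * o p q u) * o u w r = 0 := by
      linear_combination (- o r p u) * e1 + o r p k * e2
    have h5 : 0 < - o r p u * o p q k + o r p k * o p q u := by
      rcases h2.lt_or_eq with h | h
      · exact h
      · rw [← h, zero_mul, add_zero] at h4
        rcases mul_eq_zero.1 h4 with h6 | h6
        · exact absurd h6 h3.ne'
        · exact absurd h6 hP
    by_contra hcon
    have h6 : 0 < o u w p * o u w r :=
      lt_of_le_of_ne (not_lt.1 hcon) (mul_ne_zero hP hR).symm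
    rcases mul_pos_iff.1 h6 with ⟨h7, h8⟩ | ⟨h7, h8⟩
    · have := mul_pos h3 h7
      have := mul_pos h5 h8
      linarith
    · have := mul_neg_of_pos_of_neg h3 h7
      have := mul_neg_of_pos_of_neg h5 h8
      linarith
  by_cases h1 : 0 < o p q u
  · by_cases h2 : 0 < o r p u
    · exact Or.inl ⟨h1, h2⟩
    · right; right
      have h2' : o r p u < 0 := lt_of_le_of_ne (not_lt.1 h2) hβu
      apply hB h2'
      have := mul_nonneg (neg_nonneg.2 h2'.le) hγk.le
      have := mul_nonneg hβk.le h1.le
      linarith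
  · have h1' : o p q u < 0 := lt_of_le_of_ne (not_lt.1 h1) hγu
    by_cases h3 : 0 ≤ - o p q u * o r p k + o p q k * o r p u
    · right; left
      exact hA h1' h3
    · right; right
      have h4 : o r p u < 0 := by
        by_contra hcon
        apply h3
        have := mul_nonneg (neg_nonneg.2 h1'.le) hβk.le
        have := mul_nonneg hγk.le (not_lt.1 hcon)
        linarith
      apply hB h4
      linarith

/-- SEG -/
theorem seg : SegStmt := by
  intro p q r s
  constructor
  · rintro ⟨h1, h2⟩
    have e : o p q r - o p q s = o r s q - o r s p := by simp only [o]; ring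
    have hne : o r s p - o r s q ≠ 0 := by
      intro h
      have : o r s p = o r s q := by linarith
      rw [this] at h2
      exact absurd h2 (not_lt.2 (mul_self_nonneg _))
    have hsg : 0 ≤ - o r s q / (o r s p - o r s q) ∧ 0 ≤ o r s p / (o r s p - o r s q) ∧
        0 ≤ o p q s / (o r s p - o r s q) ∧ 0 ≤ - o p q r / (o r s p - o r s q) := by
      rcases mul_neg_iff.1 h2 with ⟨h3, h4⟩ | ⟨h3, h4⟩
      · rcases mul_neg_iff.1 h1 with ⟨h5, h6⟩ | ⟨h5, h6⟩
        · linarith
        · exact ⟨div_nonneg (by linarith) (by linarith), div_nonneg (by linarith) (by linarith),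
            div_nonneg (by linarith) (by linarith), div_nonneg (by linarith) (by linarith)⟩
      · rcases mul_neg_iff.1 h1 with ⟨h5, h6⟩ | ⟨h5, h6⟩
        · exact ⟨div_nonneg_of_nonpos (by linarith) (by linarith),
            div_nonneg_of_nonpos (by linarith) (by linarith),
            div_nonneg_of_nonpos (by linarith) (by linarith),
            div_nonneg_of_nonpos (by linarith) (by linarith)⟩
        · linarith
    refine ⟨(- o r s q / (o r s p - o r s q)) • p + (o r s p / (o r s p - o r s q)) • q,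
      ⟨_, _, hsg.1, hsg.2.1, ?_, rfl⟩,
      ⟨o p q s / (o r s p - o r s q), - o p q r / (o r s p - o r s q), hsg.2.2.1, hsg.2.2.2, ?_, ?_⟩⟩
    · rw [← add_div, div_eq_one_iff_eq hne]
      ring
    · rw [← add_div, div_eq_one_iff_eq hne]
      linarith
    · apply Prod.ext
      · simp only [Prod.fst_add, Prod.smul_fst, smul_eq_mul]
        rw [div_mul_eq_mul_div, div_mul_eq_mul_div, div_mul_eq_mul_div, div_mul_eq_mul_div,
          ← add_div, ← add_div, div_left_inj' hne]
        simp only [o]
        ring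
      · simp only [Prod.snd_add, Prod.smul_snd, smul_eq_mul]
        rw [div_mul_eq_mul_div, div_mul_eq_mul_div, div_mul_eq_mul_div, div_mul_eq_mul_div,
          ← add_div, ← add_div, div_left_inj' hne]
        simp only [o]
        ring
  · rintro h1 h2 h3 h4 ⟨x, ⟨a, b, ha, hb, hab, hx⟩, ⟨c, d, hc, hd, hcd, hy⟩⟩
    have key : ∀ C D c d : ℝ, 0 ≤ c → 0 ≤ d → c + d = 1 → C ≠ 0 → D ≠ 0 → c * C + d * D = 0 →
        C * D < 0 := by
      intro C D c d hc hd hcd hC hD h
      by_contra hcon
      have h5 : 0 < C * D := lt_of_le_of_ne (not_lt.1 hcon) (mul_ne_zero hC hD).symm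
      rcases mul_pos_iff.1 h5 with ⟨h7, h8⟩ | ⟨h7, h8⟩
      · have e1 := mul_nonneg hc h7.le
        have e2 := mul_nonneg hd h8.le
        have e3 : c * C = 0 := by linarith
        have e4 : d * D = 0 := by linarith
        rcases mul_eq_zero.1 e3 with h | h
        · rcases mul_eq_zero.1 e4 with h' | h'
          · linarith
          · exact hD h'
        · exact hC h
      · have e1 := mul_nonpos_of_nonneg_of_nonpos hc h7.le
        have e2 := mul_nonpos_of_nonneg_of_nonpos hd h8.le
        have e3 : c * C = 0 := by linarith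
        have e4 : d * D = 0 := by linarith
        rcases mul_eq_zero.1 e3 with h | h
        · rcases mul_eq_zero.1 e4 with h' | h'
          · linarith
          · exact hD h'
        · exact hC h
    have ha' : a = 1 - b := by linarith
    have hc' : c = 1 - d := by linarith
    constructor
    · refine key _ _ c d hc hd hcd h1 h2 ?_
      have e1 : o p q x = c * o p q r + d * o p q s := by
        rw [← hy, hc']
        simp only [o, Prod.fst_add, Prod.snd_add, Prod.smul_fst, Prod.smul_snd, smul_eq_mul]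
        ring
      have e2 : o p q x = 0 := by
        rw [← hx, ha']
        simp only [o, Prod.fst_add, Prod.snd_add, Prod.smul_fst, Prod.smul_snd, smul_eq_mul]
        ring
      rw [← e1, e2]
    · refine key _ _ a b ha hb hab h3 h4 ?_
      have e1 : o r s x = a * o r s p + b * o r s q := by
        rw [← hx, ha']
        simp only [o, Prod.fst_add, Prod.snd_add, Prod.smul_fst, Prod.smul_snd, smul_eq_mul]
        ring
      have e2 : o r s x = 0 := by
        rw [← hy, hc']
        simp only [o, Prod.fst_add, Prod.snd_add, Prod.smul_fst, Prod.smul_snd, smul_eq_mul]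
        ring
      rw [← e1, e2]

theorem Xs_symm {p q r s : ℝ × ℝ} (h : Xs p q r s) : Xs r s p q := ⟨h.2, h.1⟩

theorem Xs_swap {p q r s : ℝ × ℝ} (h : Xs p q r s) : Xs q p r s := by
  obtain ⟨h1, h2⟩ := h
  refine ⟨?_, by rw [mul_comm]; exact h2⟩
  have e1 : o q p r = - o p q r := by simp only [o]; ring
  have e2 : o q p s = - o p q s := by simp only [o]; ring
  rw [e1, e2, neg_mul_neg]
  exact h1

theorem Xs_self {p q : ℝ × ℝ} : ¬ Xs p q p q := by
  rintro ⟨h1, -⟩
  rw [o_pqp, zero_mul] at h1
  exact lt_irrefl _ h1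

theorem Xs_self' {p q : ℝ × ℝ} : ¬ Xs p q q p := by
  rintro ⟨h1, -⟩
  rw [o_pqq, zero_mul] at h1
  exact lt_irrefl _ h1

/-- TMX -/
theorem tmx : TmxStmt := by
  intro V _ f D hgp hsym hirr hcf
  let S : Set (V → V → Prop) := {T | (∀ u v, T u v → T v u) ∧ (∀ u, ¬ T u u) ∧
    (∀ u v w z, T u v → T w z → ¬ Xs (f u) (f v) (f w) (f z)) ∧ ∀ u v, D u v → T u v}
  have hne : S.Nonempty := ⟨D, hsym, hirr, hcf, fun _ _ h => h⟩
  have hfin : S.Finite := Set.toFinite S
  obtain ⟨T, hT⟩ := hfin.exists_maximal hne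
  obtain ⟨⟨h1, h2, h3, h4⟩, hmax⟩ := hT
  refine ⟨T, ⟨hgp, h1, h2, h3, fun u v huv hno => ?_⟩, h4⟩
  let T' : V → V → Prop := fun w z => T w z ∨ (w = u ∧ z = v) ∨ (w = v ∧ z = u)
  have hT' : T' ∈ S := by
    refine ⟨?_, ?_, ?_, fun w z h => Or.inl (h4 w z h)⟩
    · rintro w z (h | ⟨rfl, rfl⟩ | ⟨rfl, rfl⟩)
      · exact Or.inl (h1 _ _ h)
      · exact Or.inr (Or.inr ⟨rfl, rfl⟩)
      · exact Or.inr (Or.inl ⟨rfl, rfl⟩)
    · rintro w (h | ⟨e1, e2⟩ | ⟨e1, e2⟩)
      · exact h2 w h
      · exact huv (e1.symm.trans e2)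
      · exact huv (e2.symm.trans e1)
    · rintro w z w' z' (h | ⟨e1, e2⟩ | ⟨e1, e2⟩) (h' | ⟨e3, e4⟩ | ⟨e3, e4⟩) hX
      · exact h3 _ _ _ _ h h' hX
      · rw [e3, e4] at hX
        exact hno _ _ h (Xs_symm hX)
      · rw [e3, e4] at hX
        exact hno _ _ h (Xs_swap (Xs_symm hX))
      · rw [e1, e2] at hX
        exact hno _ _ h' hX
      · rw [e1, e2, e3, e4] at hX
        exact Xs_self hX
      · rw [e1, e2, e3, e4] at hX
        exact Xs_self' hX
      · rw [e1, e2] at hX
        exact hno _ _ h' (Xs_swap hX)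
      · rw [e1, e2, e3, e4] at hX
        exact Xs_self' hX
      · rw [e1, e2, e3, e4] at hX
        exact Xs_self hX
  have hle : T' ≤ T := hmax hT' (fun w z h => Or.inl h)
  exact hle u v (Or.inr (Or.inl ⟨rfl, rfl⟩))

end Pool.Agent.SGE.H99
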