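import Pool.Agent.SGE.Stmts

/-! # Squad SGE, row PER: perturbation to general position -/

open Filter Topology

noncomputable section

namespace Pool.Agent.SGE.H99

open Pool.Agent.SGE

/-- the moved points -/
def mv {V : Type} (f : V → ℝ × ℝ) (k : V → ℝ) (ε : ℝ) (v : V) : ℝ × ℝ :=
  ((f v).1 + ε * k v, (f v).2 + ε * (k v) ^ 2)

theorem mv_zero {V : Type} (f : V → ℝ × ℝ) (k : V → ℝ) (v : V) : mv f k 0 v = f v := by
  unfold mv
  rw [zero_mul, zero_mul, add_zero, add_zero]

theorem continuous_mv {V : Type} (f : V → ℝ × ℝ) (k : V → ℝ) (v : V) :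
    Continuous fun ε => mv f k ε v := by
  unfold mv
  fun_prop

theorem continuous_o {X : Type} [TopologicalSpace X] {p q r : X → ℝ × ℝ} (hp : Continuous p)
    (hq : Continuous q) (hr : Continuous r) : Continuous fun x => o (p x) (q x) (r x) := by
  unfold o
  fun_prop

/-- A nonzero quadratic polynomial does not vanish at small positive numbers. -/
theorem quad_ne (a b c : ℝ) (h : a ≠ 0 ∨ b ≠ 0 ∨ c ≠ 0) :
    ∀ᶠ ε : ℝ in 𝓝[>] 0, a + b * ε + c * ε ^ 2 ≠ 0 := by
  let P : Polynomial ℝ := Polynomial.C a + Polynomial.C b * Polynomial.X +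
    Polynomial.C c * Polynomial.X ^ 2
  have hP : P ≠ 0 := by
    intro h0
    have h1 : ∀ n, P.coeff n = 0 := fun n => by rw [h0, Polynomial.coeff_zero]
    have e0 := h1 0
    have e1 := h1 1
    have e2 := h1 2
    simp [P, Polynomial.coeff_X, Polynomial.coeff_C, Polynomial.coeff_X_pow] at e0 e1 e2
    rcases h with h | h | h
    · exact h e0
    · exact h e1
    · exact h e2
  have hfin : Set.Finite {x : ℝ | P.IsRoot x} := P.finite_setOfPred_isRoot hP
  have h1 : ∀ᶠ ε : ℝ in 𝓝[≠] 0, ε ∉ {x : ℝ | P.IsRoot x} :=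
    nhdsNE_le_cofinite 0 hfin.eventually_cofinite_notMem
  have h2 : 𝓝[>] (0 : ℝ) ≤ 𝓝[≠] 0 := nhdsWithin_mono _ fun x hx => (ne_of_gt hx)
  refine (h1.filter_mono h2).mono fun ε hε hz => hε ?_
  change Polynomial.eval ε P = 0
  simp only [P, Polynomial.eval_add, Polynomial.eval_mul, Polynomial.eval_C, Polynomial.eval_X,
    Polynomial.eval_pow]
  exact hz

/-- disjoint segments stay disjoint -/
theorem seg_disj {p q r s : ℝ → ℝ × ℝ} (hp : Continuous p) (hq : Continuous q)
    (hr : Continuous r) (hs : Continuous s)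
    (h : Disjoint (segment ℝ (p 0) (q 0)) (segment ℝ (r 0) (s 0))) :
    ∀ᶠ ε : ℝ in 𝓝 0, Disjoint (segment ℝ (p ε) (q ε)) (segment ℝ (r ε) (s ε)) := by
  let K : Set (ℝ × ℝ) := Set.Icc (0 : ℝ) 1 ×ˢ Set.Icc (0 : ℝ) 1
  have hK : IsCompact K := isCompact_Icc.prod isCompact_Icc
  have h1 : ∀ y ∈ K, ∀ᶠ z : ℝ × (ℝ × ℝ) in 𝓝 ((0 : ℝ), y),
      (1 - z.2.1) • p z.1 + z.2.1 • q z.1 ≠ (1 - z.2.2) • r z.1 + z.2.2 • s z.1 := by
    rintro ⟨x, y⟩ ⟨hx, hy⟩
    have hc1 : Continuous fun z : ℝ × (ℝ × ℝ) => (1 - z.2.1) • p z.1 + z.2.1 • q z.1 := by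
      fun_prop
    have hc2 : Continuous fun z : ℝ × (ℝ × ℝ) => (1 - z.2.2) • r z.1 + z.2.2 • s z.1 := by
      fun_prop
    refine (isOpen_ne_fun hc1 hc2).mem_nhds ?_
    intro heq
    have hm1 : (1 - x) • p 0 + x • q 0 ∈ segment ℝ (p 0) (q 0) :=
      ⟨1 - x, x, by linarith [hx.2], hx.1, by ring, rfl⟩
    have hm2 : (1 - x) • p 0 + x • q 0 ∈ segment ℝ (r 0) (s 0) :=
      ⟨1 - y, y, by linarith [hy.2], hy.1, by ring, heq.symm⟩
    exact Set.disjoint_left.1 h hm1 hm2
  have h2 := hK.eventually_forall_of_forall_eventually (x₀ := (0 : ℝ))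
    (P := fun ε z => (1 - z.1) • p ε + z.1 • q ε ≠ (1 - z.2) • r ε + z.2 • s ε) h1
  refine h2.mono fun ε hε => ?_
  rw [Set.disjoint_left]
  rintro x ⟨a, b, ha, hb, hab, hx⟩ ⟨c, d, hc, hd, hcd, hy⟩
  refine hε (b, d) ⟨⟨hb, by linarith⟩, ⟨hd, by linarith⟩⟩ ?_
  have e1 : 1 - b = a := by linarith
  have e2 : 1 - d = c := by linarith
  change (1 - b) • p ε + b • q ε = (1 - d) • r ε + d • s ε
  rw [e1, e2, hx, hy]

/-- PER -/
theorem per : PerStmt := by
  intro V _ f R O L M hR hO hL hM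
  obtain ⟨n, ⟨e⟩⟩ := Finite.exists_equiv_fin V
  let k : V → ℝ := fun v => ((e v : ℕ) : ℝ)
  have hk : ∀ u v, u ≠ v → k u ≠ k v := by
    intro u v huv h
    apply huv
    have h1 : (e u : ℕ) = (e v : ℕ) := Nat.cast_injective (R := ℝ) h
    exact e.injective (Fin.ext h1)
  have hle : 𝓝[>] (0 : ℝ) ≤ 𝓝 0 := nhdsWithin_le_nhds
  -- general position
  have h1 : ∀ᶠ ε : ℝ in 𝓝[>] 0, ∀ u v, u ≠ v → (mv f k ε u).1 ≠ (mv f k ε v).1 := by
    rw [eventually_all]
    intro u
    rw [eventually_all]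
    intro v
    by_cases huv : u = v
    · exact Eventually.of_forall fun ε h => absurd huv h
    · have := quad_ne ((f u).1 - (f v).1) (k u - k v) 0 (Or.inr (Or.inl (sub_ne_zero.2 (hk u v huv))))
      refine this.mono fun ε hε _ heq => hε ?_
      have h2 : (f u).1 + ε * k u = (f v).1 + ε * k v := heq
      linear_combination h2
  have h2 : ∀ᶠ ε : ℝ in 𝓝[>] 0, ∀ u v w, u ≠ v → u ≠ w → v ≠ w →
      o (mv f k ε u) (mv f k ε v) (mv f k ε w) ≠ 0 := by
    rw [eventually_all]
    intro u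
    rw [eventually_all]
    intro v
    rw [eventually_all]
    intro w
    by_cases h : u ≠ v ∧ u ≠ w ∧ v ≠ w
    · obtain ⟨huv, huw, hvw⟩ := h
      have := quad_ne (o (f u) (f v) (f w))
        (((f v).1 - (f u).1) * (k w ^ 2 - k u ^ 2) + (k v - k u) * ((f w).2 - (f u).2) -
          (((f v).2 - (f u).2) * (k w - k u) + (k v ^ 2 - k u ^ 2) * ((f w).1 - (f u).1)))
        ((k v - k u) * (k w - k u) * (k w - k v))
        (Or.inr (Or.inr (mul_ne_zero (mul_ne_zero (sub_ne_zero.2 (hk v u huv.symm))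
          (sub_ne_zero.2 (hk w u huw.symm))) (sub_ne_zero.2 (hk w v hvw.symm)))))
      refine this.mono fun ε hε _ _ _ heq => hε ?_
      rw [← heq]
      simp only [o, mv]
      ring
    · exact Eventually.of_forall fun ε a b c => absurd ⟨a, b, c⟩ h
  -- the strict conditions
  have hpos : ∀ g : ℝ → ℝ, Continuous g → 0 < g 0 → ∀ᶠ ε : ℝ in 𝓝[>] 0, 0 < g ε := by
    intro g hg h0
    exact hle (hg.continuousAt.eventually (lt_mem_nhds h0))
  have h3 : ∀ᶠ ε : ℝ in 𝓝[>] 0, ∀ u v w z, R u v w z →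
      Disjoint (segment ℝ (mv f k ε u) (mv f k ε v)) (segment ℝ (mv f k ε w) (mv f k ε z)) := by
    rw [eventually_all]
    intro u
    rw [eventually_all]
    intro v
    rw [eventually_all]
    intro w
    rw [eventually_all]
    intro z
    by_cases h : R u v w z
    · have h4 := seg_disj (continuous_mv f k u) (continuous_mv f k v) (continuous_mv f k w)
        (continuous_mv f k z) (by rw [mv_zero, mv_zero, mv_zero, mv_zero]; exact hR u v w z h)
      exact (h4.filter_mono hle).mono fun ε hε _ => hε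
    · exact Eventually.of_forall fun ε a => absurd a h
  have h4 : ∀ᶠ ε : ℝ in 𝓝[>] 0, ∀ u v w, O u v w →
      0 < o (mv f k ε u) (mv f k ε v) (mv f k ε w) := by
    rw [eventually_all]
    intro u
    rw [eventually_all]
    intro v
    rw [eventually_all]
    intro w
    by_cases h : O u v w
    · exact (hpos (fun ε => o (mv f k ε u) (mv f k ε v) (mv f k ε w))
        (continuous_o (continuous_mv f k u) (continuous_mv f k v) (continuous_mv f k w))
        (by simp only [mv_zero]; exact hO u v w h)).mono fun ε hε _ => hε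
    · exact Eventually.of_forall fun ε a => absurd a h
  have h5 : ∀ᶠ ε : ℝ in 𝓝[>] 0, ∀ u v, L u v → (mv f k ε u).1 < (mv f k ε v).1 := by
    rw [eventually_all]
    intro u
    rw [eventually_all]
    intro v
    by_cases h : L u v
    · refine (hpos (fun ε => (mv f k ε v).1 - (mv f k ε u).1)
        ((continuous_mv f k v).fst.sub (continuous_mv f k u).fst)
        (by simp only [mv_zero]; exact sub_pos.2 (hL u v h))).mono fun ε hε _ => sub_pos.1 hε
    · exact Eventually.of_forall fun ε a => absurd a h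
  have h6 : ∀ᶠ ε : ℝ in 𝓝[>] 0, ∀ u v, M u v → (mv f k ε u).2 < (mv f k ε v).2 := by
    rw [eventually_all]
    intro u
    rw [eventually_all]
    intro v
    by_cases h : M u v
    · refine (hpos (fun ε => (mv f k ε v).2 - (mv f k ε u).2)
        ((continuous_mv f k v).snd.sub (continuous_mv f k u).snd)
        (by simp only [mv_zero]; exact sub_pos.2 (hM u v h))).mono fun ε hε _ => sub_pos.1 hε
    · exact Eventually.of_forall fun ε a => absurd a h
  obtain ⟨ε, g1, g2, g3, g4, g5, g6⟩ := (h1.and (h2.and (h3.and (h4.and (h5.and h6))))).exists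
  exact ⟨mv f k ε, ⟨g1, g2⟩, g3, g4, g5, g6⟩

end Pool.Agent.SGE.H99
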